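import Pool.Agent.Helper31.IP5.P3
import Pool.Agent.Helper76.IP.BNeg5
import Pool.Agent.Helper16.IP.DBranchOf
import Pool.Agent.Helper54.IP.E3
import Pool.Agent.Helper27.IP.Closed2
import Pool.Agent.Helper14.IP.Level2

/-!
TH-P phase 2, `n = 6` (`m = 5`, closed): the diagonal branch, `kap_1^(2) ≠ 0`, `t_2 ≠ -t_1`, is the
main family.
-/

namespace Pool.Agent.Helper31.IP5

open Pool.Agent.Helper54.IP Pool.Agent.Helper76.IP Pool.Agent.Helper16.IP

variable {F : Type*} [Field F]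

/-- `m = 5` closed: `kap_1^(4) ≠ 0` -/
theorem kap14_ne (g : GForm F 5) (hc : g.Closed) : g.kap 1 4 ≠ 0 := by
  intro h
  have h1 := (rev_kap_iff' g hc (j := 1) (k := 0) (κ := 4) (by omega) (by omega)).2 h
  rw [GForm.kap, pow_zero, (g.rev hc).G0 1 (by omega), (g.rev hc).H0 1 (by omega)] at h1
  have h2 := t1_sub (g.rev hc) (by omega)
  apply h2
  linear_combination h1

theorem d_branch5 (g : GForm F 5) (hc : g.Closed) (hD : g.G 1 1 ≠ g.H 1 1) (h1 : g.t 1 = g.s 1)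
    (h2 : g.t 2 = g.s 2) (hk : g.kap 1 2 ≠ 0) (hb : g.t 2 ≠ -g.t 1) :
    g.t 2 = g.t 1 ^ 2 ∧ (g.s 3 = g.t 1 ^ 3 ∨ g.t 3 = g.t 1 ^ 3) := by
  have hks : g.swap.kap 1 2 ≠ 0 := by
    rw [GForm.kap]
    simp only [GForm.swap_t, GForm.swap_G, GForm.swap_H]
    rw [← h1, G_one g (k := 2) (by omega) (by omega) h1 h2,
      H_one g (k := 2) (by omega) (by omega) h1 h2]
    exact hk
  have close : ∀ g : GForm F 5, g.G 1 1 ≠ g.H 1 1 → g.t 1 = g.s 1 → g.t 2 = g.s 2 →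
      g.s 3 = g.t 1 * g.t 2 → (g.t 2 = g.t 1 ^ 2 ∨ g.kap 1 3 = 0) → g.t 2 = g.t 1 ^ 2 := by
    intro g hD h1 h2 h3 h
    rcases h with h | h
    · exact h
    · by_contra hne
      exact Helper27.IP.p2_dead g (by omega) hD h1 h2 h3 hne h
  rcases lev3 g (by omega) h1 h2 hk with ⟨h3, h⟩ | ⟨h3, hL, hT⟩
  · have h4 := close g hD h1 h2 h3 h
    refine ⟨h4, Or.inl ?_⟩
    rw [h3, h4]; ring
  rcases lev3 g.swap (by omega) h1.symm h2.symm hks with ⟨h3', h⟩ | ⟨h3', hL', hT'⟩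
  · have h4 := close g.swap hD h1.symm h2.symm h3' h
    simp only [GForm.swap_t, GForm.swap_s] at h3' h4
    rw [← h1, ← h2] at h3' h4
    refine ⟨h4, Or.inr ?_⟩
    rw [h3', h4]; ring
  exfalso
  simp only [GForm.swap_t, GForm.swap_s, GForm.swap_lam', GForm.swap_mu'] at hL'
  have h33 := ostate_unique g (by omega) hD h1 h2 hL hL'
  have hk4 := kap14_ne g hc
  by_cases hk3 : g.kap 1 3 = 0
  · exact p3_5 g hc h1 h2 hb h33 hk3
  have ht := g.t_ne 1 (by omega)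
  rcases Helper43.IPL.local_flat2 g (by omega) 3 (by omega) with h | h | h | h | ⟨hA, h⟩
  · have e := g.D_succ (j := 1) (k := 2) (by omega) (by omega)
    rw [GForm.D] at e
    simp only [Nat.reduceAdd] at e
    rw [h] at e
    exact (mul_ne_zero (sub_ne_zero.2 (g.lm_ne 2 (by omega)).symm) hk) e.symm
  · apply hk3
    rw [GForm.kap]
    linear_combination -h
  · apply hk4
    rw [GForm.kap]
    simp only [Nat.reduceAdd] at h
    linear_combination (-g.t 1) * h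
  · exact Helper76.IP.p4_dead g (by omega) hD h1 h2 hk hb h3 hL hT hk3 h
  · simp only [Nat.reduceAdd] at hA h
    have e := de_al g (by omega) hD h1 hL
    have h4 : g.s 4 * g.t 1 = g.t 2 ^ 2 := by
      have ht2 := g.t_ne 2 (by omega)
      have hs3 := g.s_ne 3 (by omega)
      have hal := al_ne g (by omega)
      have e2 : (1 - g.lam' 1) * g.s 3 * g.t 1 ^ 2 * (g.s 4 * g.t 1 - g.t 2 ^ 2) = 0 := by
        linear_combination h + g.t 2 ^ 2 * e
      exact sub_eq_zero.1 ((mul_eq_zero.1 e2).resolve_left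
        (mul_ne_zero (mul_ne_zero hal hs3) (pow_ne_zero 2 ht)))
    exact hk4 (p5_closed g (by omega) hD h1 h2 hk hb h3 h33 hL hT hk3 h4 (by
      linear_combination hA)).2

/-- the N branch is empty at `m = 5` (closed); owner helper27. -/
def N5 (F : Type*) [Field F] : Prop :=
  ∀ g : GForm F 5, g.Closed → g.G 1 1 ≠ g.H 1 1 → g.t 2 ≠ g.s 2 →
    (g.s 2 * g.t 1 - g.t 2) * ((1 - g.lam' 0) - g.t 1 * g.mu' 0 + g.t 1 - 1) =
      (g.s 2 - 1) * (g.t 1 * g.t 2 * (1 - g.lam' 0) - g.t 1 * g.mu' 0) →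
    (g.t 2 * g.s 1 - g.s 2) * ((1 - g.lam' 0) - g.t 1 * g.mu' 0 + g.t 1 - 1) =
      (g.t 2 - 1) * (g.s 1 * g.s 2 * (1 - g.lam' 0) - g.t 1 * g.mu' 0) → False

/-- the last two columns from the first three, via the reversal. -/
theorem main_tail (hN : N5 F) (g : GForm F 5) (hc : g.Closed) {q : F} (ht1 : g.t 1 = q)
    (ht2 : g.t 2 = q ^ 2) (hs2 : g.s 2 = q ^ 2) (hs3 : g.s 3 = q ^ 3) :
    g.s 4 = q ^ 4 ∧ g.s 5 = q ^ 5 := by
  have w0 := g.s_ne 5 le_rfl
  have q0 : q ≠ 0 := by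
    rw [← ht1]
    exact g.t_ne 1 (by omega)
  by_cases hZ : (g.rev hc).G 1 1 = (g.rev hc).H 1 1
  · exfalso
    have B := z1_bas (g.rev hc) (by omega) hZ
    have e1 := B.s2
    have e2 := B.t2
    simp only [GForm.rev_s, GForm.rev_t, Nat.reduceSub] at e1 e2
    rw [ht2] at e2
    rw [hs3, ht1] at e1
    field_simp at e1 e2
    apply g.s_inj 2 4 (by omega) (by omega)
    rw [hs2]
    apply mul_left_cancel₀ (pow_ne_zero 2 q0)
    linear_combination e1 - e2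
  rcases Pool.Agent.Helper14.IP.level2 (g.rev hc) (by omega) hZ with
    ⟨h2, h1⟩ | ⟨h2, h1, h⟩ | ⟨h2, hn1, hn2⟩
  · simp only [GForm.rev_s, GForm.rev_t, Nat.reduceSub] at h1 h2
    rw [ht2, hs3] at h2
    rw [ht1] at h1
    field_simp at h1 h2
    have h5 : g.s 5 = q ^ 5 := by linear_combination h2
    refine ⟨?_, h5⟩
    apply mul_left_cancel₀ q0
    linear_combination h5 - h1
  · exact (Helper27.IP.c3_dead3 (g.rev hc) (by omega) hZ h2 h1 h).elim
  · exact (hN (g.rev hc) (GForm.Closed.rev g hc) hZ h2 hn1 hn2).elim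

/-- the generic diagonal branch is the main family -/
theorem main5 (hN : N5 F) (g : GForm F 5) (hc : g.Closed) (hD : g.G 1 1 ≠ g.H 1 1)
    (h1 : g.t 1 = g.s 1) (h2 : g.t 2 = g.s 2) (hk : g.kap 1 2 ≠ 0) (hb : g.t 2 ≠ -g.t 1) :
    ∀ i, i ≤ 5 → g.t i = g.t 1 ^ i ∧ g.s i = g.t 1 ^ i := by
  obtain ⟨hT, h3⟩ := d_branch5 g hc hD h1 h2 hk hb
  have key : ∀ g : GForm F 5, g.t 1 = g.s 1 → g.t 2 = g.s 2 → g.t 2 = g.t 1 ^ 2 →
      g.t 3 = g.t 1 ^ 3 → g.t 3 = g.t 1 ^ 3 ∧ g.s 3 = g.t 1 ^ 3 := by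
    intro g h1 h2 hT h3
    have e := e3 g (by omega) (g.t 1) (by
      intro j hj
      interval_cases j
      · rw [g.t0, pow_zero]
      · rw [pow_one]
      · exact hT
      · exact h3) h1.symm (by rw [← h2, hT])
    exact ⟨h3, e 3 (by omega)⟩
  have h33 : g.t 3 = g.t 1 ^ 3 ∧ g.s 3 = g.t 1 ^ 3 := by
    rcases h3 with h3 | h3
    · obtain ⟨e1, e2⟩ := key g.swap h1.symm h2.symm (by
        show g.s 2 = g.s 1 ^ 2
        rw [← h2, hT, h1]) (by
        show g.s 3 = g.s 1 ^ 3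
        rw [h3, h1])
      simp only [GForm.swap_t, GForm.swap_s] at e1 e2
      rw [e1, e2, h1]
      exact ⟨rfl, rfl⟩
    · exact key g h1 h2 hT h3
  obtain ⟨s4, s5⟩ := main_tail hN g hc rfl hT (by rw [← h2, hT]) h33.2
  obtain ⟨t4, t5⟩ := main_tail hN g.swap hc.swap (q := g.t 1) h1.symm
    (by rw [GForm.swap_t, ← h2, hT]) hT h33.1
  intro i hi
  interval_cases i
  · rw [g.t0, g.s0, pow_zero]
    exact ⟨rfl, rfl⟩
  · rw [pow_one]
    exact ⟨rfl, h1.symm⟩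
  · rw [← h2]
    exact ⟨hT, hT⟩
  · exact h33
  · exact ⟨t4, s4⟩
  · exact ⟨t5, s5⟩

/-- closed corners of type Z at `m = 5`: the parameters are those of E1. -/
theorem z5_ts (hN : N5 F) (g : GForm F 5) (hc : g.Closed) (hZ : g.G 1 1 = g.H 1 1) :
    ∃ a r : F, r ^ 2 + (1 + a) * (1 + a + a ^ 2) * r + a ^ 3 = 0 ∧ a ≠ 0 ∧ r ≠ 0 ∧
      g.t 1 = a ∧ g.t 2 = -a ∧ g.t 3 = -r ∧ g.t 4 = r ∧ g.t 5 = a * r ∧
      g.s 1 = a ∧ g.s 2 = -a ∧ g.s 3 = -r ∧ g.s 4 = r ∧ g.s 5 = a * r := by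
  have B := z1_bas g (by omega) hZ
  have hD := z_rev_ne g hc (by omega) hZ
  have hk : (g.rev hc).kap 1 2 ≠ 0 := by
    intro h
    exact B.kap_ne (k := 2) le_rfl (by omega)
      ((rev_kap_iff' g hc (j := 1) (k := 2) (κ := 2) (by omega) (by omega)).1 h)
  have w0 := g.s_ne 5 le_rfl
  have n1 := g.t_ne 1 (by omega)
  have n2 := g.t_ne 2 (by omega)
  have n3 := g.t_ne 3 (by omega)
  have n4 := g.t_ne 4 (by omega)
  have n5 := g.t_ne 5 (by omega)
  rcases Pool.Agent.Helper14.IP.level2 (g.rev hc) (by omega) hD with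
    ⟨h2, h1⟩ | ⟨h2, h1, h⟩ | ⟨h2, hn1, hn2⟩
  · by_cases hb : (g.rev hc).t 2 = -(g.rev hc).t 1
    · obtain ⟨a, r, C, ha, hr, t1, t2, t3, t4, t5, s1, s2, s3, s4, s5, -⟩ :=
        e1_of_closed (g.rev hc) (GForm.Closed.rev g hc) hD h1.symm.symm h2 hb hk
      simp only [GForm.rev_s, GForm.rev_t, Nat.reduceSub, g.s0] at t1 t2 t3 t4 t5 s1 s2 s3 s4 s5
      have w : g.s 5 = a⁻¹ * r⁻¹ := by rw [← mul_inv, ← s5, one_div, inv_inv]
      rw [div_eq_iff w0, w] at s1 s2 s3 s4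
      refine ⟨a⁻¹, r⁻¹, ?_, inv_ne_zero ha, inv_ne_zero hr, ?_, ?_, ?_, ?_, ?_, ?_, ?_, ?_, ?_, w⟩
      · field_simp
        linear_combination C
      · rw [← t1, inv_inv]
      · rw [← inv_neg, ← t2, inv_inv]
      · rw [← inv_neg, ← t3, inv_inv]
      · rw [← t4, inv_inv]
      · rw [← mul_inv, ← t5, inv_inv]
      · rw [s4]
        field_simp
      · rw [s3]
        field_simp
      · rw [s2]
        field_simp
      · rw [s1]
        field_simp
    · exfalso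
      have h := main5 hN (g.rev hc) (GForm.Closed.rev g hc) hD h1 h2 hk hb
      have e5 := (h 5 (by omega)).2
      have e3 := (h 3 (by omega)).2
      simp only [GForm.rev_s, GForm.rev_t, Nat.reduceSub, g.s0, B.s2, inv_pow] at e3 e5
      apply B.am
      have w : g.s 5 = g.t 1 ^ 5 := by
        rw [one_div] at e5
        exact inv_injective e5
      rw [w] at e3
      field_simp at e3
      linear_combination -e3
  · exact (Helper27.IP.c3_dead3 (g.rev hc) (by omega) hD h2 h1 h).elim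
  · exact (hN (g.rev hc) (GForm.Closed.rev g hc) hD h2 hn1 hn2).elim

end Pool.Agent.Helper31.IP5
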