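import Pool.Agent.Helper31.IP5.Z5
import Pool.Agent.Helper27.IP.E2Elim

/-!
TH-P phase 2, `n = 6` (`m = 5`): the elimination theorem for closed corners.
-/

namespace Pool.Agent.Helper31.IP5

open Pool.Agent.Helper54.IP Pool.Agent.Helper76.IP Pool.Agent.Helper27.IPE2

variable {F : Type*} [Field F]

/-- closed corners of size 5: main family, E1 or E2. -/
theorem c5_elim (hN : N5 F) (g : GForm F 5) (hc : g.Closed) :
    (∀ i, i ≤ 5 → g.t i = g.t 1 ^ i ∧ g.s i = g.t 1 ^ i) ∨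
      ∀ f : ℕ → F, g.IsPhi f → (∃ a r : F, E1L a r g.t g.s f) ∨ ∃ a r : F, E2L a r g.t g.s f := by
  by_cases hZ : g.G 1 1 = g.H 1 1
  · right
    intro f hf
    left
    obtain ⟨a, r, ⟨C, ha, hr, t1, t2, t3, t4, t5, s1, s2, s3, s4, s5⟩,
      ⟨h20, ha1, ha1', hr1, hr1', har, hra, hra'⟩, h⟩ := z5_elim hN g hc hZ hf
    exact ⟨a, r, C, ha, hr, h20, sub_ne_zero.1 ha1, fun h => ha1' (by rw [h]; ring),
      sub_ne_zero.1 hr1, fun h => hr1' (by rw [h]; ring), sub_ne_zero.1 hra,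
      fun h => hra' (by rw [h]; ring), sub_ne_zero.1 har, g.t0, t1, t2, t3, t4, t5, g.s0, s1, s2,
      s3, s4, s5, h.f2, h.f3, h.f4, h.f5, h.n1, h.n2, h.n3, h.n4, h.n6, h.n7⟩
  rcases Pool.Agent.Helper14.IP.level2 g (by omega) hZ with
    ⟨h2, h1⟩ | ⟨h2, h1, h⟩ | ⟨h2, hn1, hn2⟩
  · by_cases hk : g.kap 1 2 = 0
    · right
      intro f hf
      right
      exact e2_elim g hc hZ h1 h2 hk hf
    by_cases hb : g.t 2 = -g.t 1
    · right
      intro f hf
      left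
      exact e1_elim g hc hZ h1 h2 hb hk hf
    · left
      exact main5 hN g hc hZ h1 h2 hk hb
  · exact (Helper27.IP.c3_dead3 g (by omega) hZ h2 h1 h).elim
  · exact (hN g hc hZ h2 hn1 hn2).elim

end Pool.Agent.Helper31.IP5
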