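import Pool.Agent.Helper76.IP.ZRev
import Pool.Agent.Helper36.IP.Mono
import Pool.Agent.Helper54.IP.CTools

/-!
TH-P phase 2, `n = 6` (`m = 5`, closed): the diagonal branch with `kap_1^(3) = 0`, `s_3 = t_3`,
`t_2 ≠ -t_1` is impossible.
-/

namespace Pool.Agent.Helper31.IP5

open Pool.Agent.Helper54.IP Pool.Agent.Helper76.IP

variable {F : Type*} [Field F]

theorem p3_alg {a b s t : F} (h2 : (2 : F) ≠ 0) (ha : a ≠ 0) (hs : s ≠ 0) (ham : a + 1 ≠ 0)
    (hbm : b + 1 ≠ 0) (hab : a * b + 1 ≠ 0) (hR : b ^ 2 + a ^ 2 = 0) (ht : t ^ 2 = s ^ 2)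
    (q1 : (s - 1) * (s - a ^ 4 * b) + s * (a + 1) * (a ^ 2 + 1) * (a * b + 1) = 0)
    (q2 : (t - 1) * (t - a ^ 5) + t * (b + 1) * (1 - a ^ 2) * (a * b + 1) = 0) : False := by
  have ht' : (t - s) * (t + s) = 0 := by linear_combination ht
  rcases mul_eq_zero.1 ht' with h | h
  · have e : t = s := by linear_combination h
    subst e
    have : 2 * (a ^ 3 * t * (a + 1) ^ 2 * (b + 1) ^ 2 * (a * b + 1)) = 0 := by
      linear_combination (a ^ 7 * b * t - a ^ 7 * b - a ^ 6 * b ^ 2 * t - 2 * a ^ 5 * b ^ 2 * t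
        + 2 * a ^ 4 * b * t ^ 2 + 3 * a ^ 4 * t ^ 2 - 2 * a ^ 4 * t + 2 * a ^ 3 * b ^ 2 * t
        + 4 * a ^ 3 * b * t ^ 2 + 3 * a ^ 3 * b * t + 4 * a ^ 3 * t ^ 2 + a ^ 2 * b ^ 2 * t
        + 4 * a ^ 2 * b * t ^ 2 + 4 * a ^ 2 * b * t + 5 * a ^ 2 * t ^ 2 + 2 * a ^ 2 * t
        + 2 * a * b * t ^ 2 + a * b * t + 2 * a * t ^ 3 + 3 * a * t ^ 2 + a * t + 2 * t ^ 3) * hR
        + (a ^ 4 * b + a ^ 3 * b ^ 2 + 2 * a ^ 3 * b - 2 * a ^ 3 * t + a ^ 3 + a ^ 2 * b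
          - 2 * a ^ 2 * t + a ^ 2 - 2 * a * b ^ 2 * t - a * t - 2 * b ^ 2 * t) * q1
        + (a ^ 4 * b - a ^ 3 * b ^ 2 - 2 * a ^ 2 * b ^ 2 - a ^ 2 * b - a * b ^ 2 - a * b
          + a * t) * q2
    exact mul_ne_zero h2 (mul_ne_zero (mul_ne_zero (mul_ne_zero (mul_ne_zero (pow_ne_zero 3 ha)
      hs) (pow_ne_zero 2 ham)) (pow_ne_zero 2 hbm)) hab) this
  · have e : t = -s := by linear_combination h
    subst e
    have : 2 * (a ^ 3 * s ^ 2 * (a + 1) * (b + 1)) = 0 := by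
      linear_combination (-a ^ 5 * b ^ 2 * s - a ^ 4 * b ^ 2 * s ^ 2 - a ^ 4 * b * s ^ 2
        - a ^ 3 * b ^ 2 * s ^ 2 + a ^ 3 * b ^ 2 * s + a ^ 3 * b * s + a ^ 2 * b ^ 2 * s ^ 2
        + 3 * a ^ 2 * b * s ^ 2 + a ^ 2 * b * s + 2 * a ^ 2 * s ^ 2 + a * b ^ 2 * s ^ 2
        + 3 * a * b * s ^ 2 + 2 * a * s ^ 2 + b * s ^ 2) * hR
        + (-a ^ 3 * b - a * b ^ 2 * s - a * b * s - b ^ 2 * s) * q1
        + (a ^ 2 * b ^ 2 + a * b ^ 2 * s + a * b * s + b ^ 2 * s) * q2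
    exact mul_ne_zero h2 (mul_ne_zero (mul_ne_zero (mul_ne_zero (pow_ne_zero 3 ha)
      (pow_ne_zero 2 hs)) ham) hbm) this

/-- type Z, `m = 5`: `s_4` -/
theorem z1_s4 {m : ℕ} (g : GForm F m) (hm : 5 ≤ m) (B : Bas g) {y : F} (y0 : y ≠ 0)
    (hy : g.t 1 * g.s 3 = g.s 1 ^ 2 * y)
    (hmu : g.mu' 1 = -(g.t 1 ^ 2 * y * (1 - g.lam' 1))) :
    g.t 1 ^ 2 * g.s 4 = -(g.s 1 ^ 3 * y) := by
  have a0 := B.a0
  have b0 := B.b0
  have al0 : 1 - g.lam' 1 ≠ 0 := sub_ne_zero.2 (g.lam'_ne 1 (by omega)).symm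
  have hy2 := mul_ne_zero (pow_ne_zero 2 b0) y0
  have a20 := pow_ne_zero 2 a0
  rcases Pool.Agent.Helper43.IPL.local_flat g (by omega) 3 (by omega) with h | h | h | h | h
  · exfalso
    have e := g.D_succ (j := 1) (k := 2) (by omega) (by omega)
    rw [GForm.D, h] at e
    rcases mul_eq_zero.1 e.symm with e | e
    · exact g.lm_ne 2 (by omega) (sub_eq_zero.1 e).symm
    · exact B.kap_ne (k := 2) (by omega) (by omega) e
  · exfalso
    apply B.kap_ne (k := 3) (by omega) (by omega)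
    rw [GForm.kap]
    linear_combination -h
  · exfalso
    apply B.kap_ne (k := 3 + 1) (by omega) (by omega)
    rw [GForm.kap]
    linear_combination (-g.t 1) * h
  · rw [B.t2] at h
    linear_combination (-g.t 1) * h - g.s 1 * hy
  · exfalso
    apply g.s_inj 1 4 (by omega) (by omega)
    rw [B.t2, hmu] at h
    apply mul_left_cancel₀ (mul_ne_zero al0 (mul_ne_zero a20 hy2))
    linear_combination (1 - g.lam' 1) * g.t 1 ^ 2 * g.s 4 * hy - h

theorem p3_5 (g : GForm F 5) (hc : g.Closed) (h1 : g.t 1 = g.s 1) (h2 : g.t 2 = g.s 2)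
    (hb : g.t 2 ≠ -g.t 1) (h33 : g.t 3 = g.s 3) (hk3 : g.kap 1 3 = 0) : False := by
  have w0 := g.s_ne 5 le_rfl
  have a0 := g.t_ne 1 (by omega)
  have b0 := g.t_ne 2 (by omega)
  have c0 := g.t_ne 3 (by omega)
  have hK := (rev_kap_iff' g hc (j := 1) (k := 1) (κ := 3) (by omega) (by omega)).2 hk3
  have r4 : (g.rev hc).s 4 * (g.rev hc).t 1 = (g.rev hc).s 5 := by
    simp only [GForm.rev_s, GForm.rev_t, Nat.reduceSub, g.s0]
    rw [← h1]
    field_simp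
  have r3 : (g.rev hc).s 3 * (g.rev hc).t 2 = (g.rev hc).s 5 := by
    simp only [GForm.rev_s, GForm.rev_t, Nat.reduceSub, g.s0]
    rw [← h2]
    field_simp
  have r2 : (g.rev hc).s 2 * (g.rev hc).t 3 = (g.rev hc).s 5 := by
    simp only [GForm.rev_s, GForm.rev_t, Nat.reduceSub, g.s0]
    rw [← h33]
    field_simp
  have hbn : (g.rev hc).t 2 ≠ -(g.rev hc).t 1 := by
    simp only [GForm.rev_t]
    intro e
    apply hb
    field_simp at e
    linear_combination e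
  have hcr := GForm.Closed.rev g hc
  obtain ⟨h, hh⟩ : ∃ h, h = g.rev hc := ⟨_, rfl⟩
  rw [← hh] at hK r4 r3 r2 hbn hcr
  clear hh
  have t0 := h.t_ne 1 (by omega)
  have hZ : h.G 1 1 = h.H 1 1 := by
    rw [GForm.kap, pow_one] at hK
    apply mul_left_cancel₀ t0
    linear_combination hK
  have B := z1_bas h (by omega) hZ
  have B' : Bas h.swap := z1_bas h.swap (by omega) hZ
  obtain ⟨y, y0, hs3, ht3, hmu', hmu⟩ := z1_y h (by omega) hZ
  have hu4 := z1_s4 h.swap le_rfl B' y0 ht3 hmu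
  have mono := Pool.Agent.Helper36.IP.mono_closed hcr (n := 2) rfl
  have C := hcr.c1 (κ := 4) rfl
  have C' := hcr.c1' (κ := 4) rfl
  have hx := B.hx
  have hxs := B'.hx
  have hys := B'.hx'
  rw [B.hx'] at C
  simp only [GForm.swap_t, GForm.swap_s, GForm.swap_lam', GForm.swap_mu'] at hu4 hxs hys
  rw [hys] at C'
  have s0 := h.s_ne 1 (by omega)
  have s50 := h.s_ne 5 (by omega)
  have am : h.t 1 + 1 ≠ 0 := fun e => B.am (by linear_combination e)
  have bm : h.s 1 + 1 ≠ 0 := fun e => B.bm (by linear_combination e)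
  have a1 : 1 - h.t 1 ≠ 0 := fun e => B.a1 (by linear_combination -e)
  have b1 : 1 - h.s 1 ≠ 0 := fun e => B.b1 (by linear_combination -e)
  have d0 := B.d0
  have ab := B.c0
  rw [B.s2] at r2
  rw [B.t2] at r3 hbn
  generalize h.t 1 = a at *
  generalize h.s 1 = b at *
  generalize h.s 5 = s at *
  generalize h.t 5 = t at *
  generalize h.s 4 = s4 at *
  generalize h.t 4 = u4 at *
  generalize h.s 3 = s3 at *
  generalize h.t 3 = t3 at *
  have e4 : (a - b) * (a + b) * (a ^ 2 + b ^ 2) = 0 := by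
    apply mul_left_cancel₀ y0
    linear_combination -a ^ 2 * ht3 - a * b * r2 + b ^ 2 * hs3 + a * b * r3
  have hab : a - b ≠ 0 := fun e => hbn (by linear_combination e)
  have hR : b ^ 2 + a ^ 2 = 0 := by
    have := (mul_eq_zero.1 e4).resolve_left (mul_ne_zero hab d0)
    linear_combination this
  have h20 : (2 : F) ≠ 0 := by
    intro e
    have : (a + b) ^ 2 = 0 := by linear_combination hR + a * b * e
    exact d0 (pow_eq_zero_iff (by norm_num) |>.1 this)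
  have q1 : (s - 1) * (s - a ^ 4 * b) + s * (a + 1) * (a ^ 2 + 1) * (a * b + 1) = 0 := by
    apply mul_left_cancel₀ a1
    linear_combination (1 + a * b) * C - (s - 1) * (s - a ^ 4 * b) * hx
  have q2 : (t - 1) * (t - b ^ 4 * a) + t * (b + 1) * (b ^ 2 + 1) * (a * b + 1) = 0 := by
    apply mul_left_cancel₀ b1
    linear_combination (1 + b * a) * C' - (t - 1) * (t - b ^ 4 * a) * hxs
  have ht : t ^ 2 = s ^ 2 := by
    have k1 : (b * u4) ^ 2 = t ^ 2 := by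
      apply mul_left_cancel₀ (pow_ne_zero 2 s50)
      linear_combination mono + (a * s4 + s) * t ^ 2 * r4
    have k2 : a * s = -(b ^ 3 * y) := by linear_combination -a * r3 - b * hs3
    apply mul_left_cancel₀ (mul_ne_zero (pow_ne_zero 2 t0) (pow_ne_zero 2 s0))
    linear_combination (-a ^ 2 * b ^ 2) * k1 + a ^ 2 * (b ^ 2 * u4 - a ^ 3 * y) * hu4
      - b ^ 2 * (a * s - b ^ 3 * y) * k2 - y ^ 2 * (b ^ 4 + a ^ 4) * (b ^ 2 - a ^ 2) * hR
  exact p3_alg h20 t0 s50 am bm (by rwa [add_comm] at ab) hR ht q1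
    (by linear_combination q2 + ((t - 1) * a * (b ^ 2 - a ^ 2) - t * (b + 1) * (a * b + 1)) * hR)

end Pool.Agent.Helper31.IP5
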