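import Pool.Agent.Helper31.IP5.DB
import Pool.Agent.Helper76.IP.E1Elim

/-!
TH-P phase 2, `n = 6` (`m = 5`, closed), type Z (`G 1 1 = H 1 1`): the parameter arrays are those of
E1 with `f 1 = -(a ^ 2 + 1)`.
-/

namespace Pool.Agent.Helper31.IP5

open Pool.Agent.Helper54.IP Pool.Agent.Helper76.IP

variable {F : Type*} [Field F]

/-- the array of E1 at type Z -/
structure Z5L (a r : F) (f : ℕ → F) : Prop where
  f1 : f 1 = -(a ^ 2 + 1)
  f2 : f 2 = a * (a + 1) * (r - 1)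
  f3 : f 3 * ((a + 1) * ((a + 1) * f 1 - (a * r - 1))) =
    -((r - a) * (r + a) * (r * f 1 + (a + 1) * (r + a)))
  f4 : f 4 = -(r * (a + 1) * (r - 1))
  f5 : f 5 * ((a + 1) * (a ^ 2 + 1) * f 1 - (a * r - 1)) = -(a ^ 4 * r * (a * r - 1) * f 1)
  n1 : f 1 ≠ 0
  n2 : (a + 1) * f 1 - (a * r - 1) ≠ 0
  n3 : r * f 1 + (a + 1) * (r + a) ≠ 0
  n4 : (a + 1) * (a ^ 2 + 1) * f 1 - (a * r - 1) ≠ 0
  n6 : (a + 1) * (a ^ 2 + 1) * f 1 + (r ^ 2 - 1) * (a * r - 1) ≠ 0
  n7 : f 1 + (a - 1) * (a * r - 1) ≠ 0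

theorem z5_elim (hN : N5 F) (g : GForm F 5) (hcl : g.Closed) (hZ : g.G 1 1 = g.H 1 1)
    {f : ℕ → F} (hf : g.IsPhi f) :
    ∃ a r : F, (r ^ 2 + (1 + a) * (1 + a + a ^ 2) * r + a ^ 3 = 0 ∧ a ≠ 0 ∧ r ≠ 0 ∧
      g.t 1 = a ∧ g.t 2 = -a ∧ g.t 3 = -r ∧ g.t 4 = r ∧ g.t 5 = a * r ∧
      g.s 1 = a ∧ g.s 2 = -a ∧ g.s 3 = -r ∧ g.s 4 = r ∧ g.s 5 = a * r) ∧
      ((2 : F) ≠ 0 ∧ a - 1 ≠ 0 ∧ a + 1 ≠ 0 ∧ r - 1 ≠ 0 ∧ r + 1 ≠ 0 ∧ a * r - 1 ≠ 0 ∧
        r - a ≠ 0 ∧ r + a ≠ 0) ∧ Z5L a r f := by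
  obtain ⟨a, r, C, ha, hr, t1, t2, t3, t4, t5, s1, s2, s3, s4, s5⟩ := z5_ts hN g hcl hZ
  have BB := z1_bas g (by omega) hZ
  obtain ⟨X, Y, hx⟩ := g.exists_XY (by omega)
  have ha1 : a - 1 ≠ 0 := by rw [← t1]; exact g.t_sub_one (by omega) (by omega)
  have ha1' : a + 1 ≠ 0 := by
    have := g.t_sub_one (k := 2) (by omega) (by omega)
    rw [t2] at this
    intro h; exact this (by linear_combination -h)
  have hr1 : r - 1 ≠ 0 := by rw [← t4]; exact g.t_sub_one (by omega) (by omega)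
  have hr1' : r + 1 ≠ 0 := by
    have := g.t_sub_one (k := 3) (by omega) (by omega)
    rw [t3] at this
    intro h; exact this (by linear_combination -h)
  have har : a * r - 1 ≠ 0 := by rw [← t5]; exact g.t_sub_one (by omega) (by omega)
  have hra : r - a ≠ 0 := by
    have := sub_ne_zero.2 (g.t_inj 1 4 (by omega) (by omega))
    rw [t1, t4] at this
    intro h; exact this (by linear_combination -h)
  have hra' : r + a ≠ 0 := by
    have := sub_ne_zero.2 (g.t_inj 2 4 (by omega) (by omega))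
    rw [t2, t4] at this
    intro h; exact this (by linear_combination -h)
  have h20 : (2 : F) ≠ 0 := by
    have := sub_ne_zero.2 (g.t_inj 1 2 (by omega) (by omega))
    rw [t1, t2] at this
    intro h; exact this (by linear_combination a * h)
  have hXn := hx.X_ne (by omega)
  have hYn := hx.Y_ne (by omega)
  have hx1 := hx.x
  have hy1 := hx.y
  have bx := BB.hx
  have by' := BB.hx'
  rw [t1, s1] at bx
  rw [s1] at by'
  rw [t1] at hx1 hy1
  have hXa : X * (a ^ 2 + 1) = -1 := by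
    apply mul_left_cancel₀ ha1
    linear_combination bx - (1 + a * a) * hx1
  have B : a ^ 2 * (a * r - 1) * Y = r * ((a + 1) * (a ^ 2 + 1) - (a * r - 1) * X) := by
    have c := hcl.cX (ι := 3) (by omega) hx
    rw [t1, s5] at c
    apply mul_left_cancel₀ (mul_ne_zero ha ha1)
    linear_combination c
  have hD0 : a ^ 2 * (a * r - 1) ≠ 0 := mul_ne_zero (pow_ne_zero 2 ha) har
  have hf1 := hf.one (by omega) hx
  have f1n : f 1 ≠ 0 := hf.ne (k := 0) (by omega)
  have f1' : f 1 = -(a ^ 2 + 1) := by linear_combination f 1 * hXa - (a ^ 2 + 1) * hf1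
  have G1k := fun k (hk : k ≤ 5) => hx.G1 (by omega) (k := k) hk
  have H1k := fun k (hk : k ≤ 5) => hx.H1 (by omega) (k := k) hk
  have g12 := G1k 2 (by omega)
  have h12 := H1k 2 (by omega)
  have g13 := G1k 3 (by omega)
  have h13 := H1k 3 (by omega)
  have g14 := G1k 4 (by omega)
  have h14 := H1k 4 (by omega)
  have g15 := G1k 5 (by omega)
  rw [t1, s2] at g12 h12
  rw [t1, s3] at g13 h13
  rw [t1, s4] at g14 h14
  rw [t1, s5] at g15
  have hk : g.kap 1 2 ≠ 0 := BB.kap_ne (k := 2) le_rfl (by omega)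
  have hk3 : g.kap 1 3 ≠ 0 := BB.kap_ne (k := 3) (by omega) (by omega)
  have hk4 : g.kap 1 4 ≠ 0 := BB.kap_ne (k := 4) (by omega) (by omega)
  -- kap 1 2
  have hB3 : a * (a + 1) * X - (a + 1) * Y + a ≠ 0 := by
    intro h
    apply hk
    rw [GForm.kap, t1]
    linear_combination a * g12 + h12 - (a - 1) * h
  have hl2 := hx.lam2 (by omega)
  rw [t1, s2, s3] at hl2
  have hA3 : X * (r + 1) - (a + 1) * Y + (a + 1) ≠ 0 := by
    intro h
    refine mul_ne_zero (mul_ne_zero (sub_ne_zero.2 (g.lam_ne 2 (by omega)).symm) ha) hB3 ?_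
    linear_combination hl2 + a * h
  have i3a : (a + 1) * (a ^ 2 * (a * r - 1)) * (X * (r + 1) - (a + 1) * Y + (a + 1)) * f 1 =
      (r - a) * (r + a) * ((a + 1) * f 1 - (a * r - 1)) := by
    linear_combination ((a + 1) * (a ^ 2 * (a * r - 1)) * (r + 1) + (a + 1) ^ 2 * r * (a * r - 1))
      * hf1 - (a + 1) ^ 2 * f 1 * B + (a * r - a * f 1 - f 1 - 1) * C
  have i3b : (a + 1) * (r + 1) * (a ^ 2 * (a * r - 1)) * (a * (a + 1) * X - (a + 1) * Y + a) * f 1 =
      2 * a * ((r - a) * (r + a)) * (r * f 1 + (a + 1) * (r + a)) := by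
    linear_combination ((a + 1) * (r + 1) * (a ^ 2 * (a * r - 1)) * (a * (a + 1))
      + (r + 1) * (a + 1) ^ 2 * r * (a * r - 1)) * hf1 - (r + 1) * (a + 1) ^ 2 * f 1 * B
      + (a ^ 3 * r + a ^ 2 - 2 * a * r * f 1 - a * r - a * f 1 - f 1 - 1) * C
  have n2 : (a + 1) * f 1 - (a * r - 1) ≠ 0 := by
    intro h
    rw [h, mul_zero] at i3a
    exact mul_ne_zero (mul_ne_zero (mul_ne_zero ha1' hD0) hA3) f1n i3a
  have n3 : r * f 1 + (a + 1) * (r + a) ≠ 0 := by
    intro h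
    rw [h, mul_zero] at i3b
    exact mul_ne_zero (mul_ne_zero (mul_ne_zero (mul_ne_zero ha1' hr1') hD0) hB3) f1n i3b
  have f3 := hf.three (by omega) hx
  rw [t1, s1, s2, s3] at f3
  have f3' : f 3 * ((a + 1) * ((a + 1) * f 1 - (a * r - 1))) =
      -((r - a) * (r + a) * (r * f 1 + (a + 1) * (r + a))) := by
    apply mul_left_cancel₀ (mul_ne_zero (mul_ne_zero h20 (pow_ne_zero 2 ha))
      (mul_ne_zero hra hra'))
    linear_combination (a + 1) * (a ^ 2 * (a * r - 1)) * f 1 * f3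
      - 2 * a ^ 2 * (a + 1) * f 3 * i3a - (r + a) * (r - a) * a * i3b
  -- Y
  have iY : a ^ 2 * (a * r - 1) * (Y * f 1) =
      r * ((a + 1) * (a ^ 2 + 1) * f 1 - (a * r - 1)) := by
    linear_combination f 1 * B - r * (a * r - 1) * hf1
  have n4 : (a + 1) * (a ^ 2 + 1) * f 1 - (a * r - 1) ≠ 0 := by
    intro h
    rw [h, mul_zero] at iY
    exact mul_ne_zero hD0 (mul_ne_zero hYn f1n) iY
  have n6 : (a + 1) * (a ^ 2 + 1) * f 1 + (r ^ 2 - 1) * (a * r - 1) ≠ 0 := by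
    intro h
    have d3 := g.D_succ (j := 1) (k := 2) (by omega) (by omega)
    have d3n : g.D 1 3 ≠ 0 := by
      rw [d3]
      exact mul_ne_zero (sub_ne_zero.2 (g.lm_ne 2 (by omega)).symm) hk
    rw [GForm.D, t1] at d3n
    refine mul_ne_zero (mul_ne_zero (mul_ne_zero hr1 f1n) (mul_ne_zero hD0 hr)) d3n ?_
    linear_combination (r - 1) * f 1 * (a ^ 2 * (a * r - 1)) * (r * g13 + a ^ 2 * h13)
      - (a - 1) * (r - 1) * (r * (r + 1)) * (a ^ 2 * (a * r - 1)) * hf1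
      + (a - 1) * (r - 1) * a ^ 2 * (r + 1) * iY + (a - 1) * r * a ^ 2 * f 1 * C
      - 2 * (a - 1) * r * a ^ 2 * h
  have n7 : f 1 + (a - 1) * (a * r - 1) ≠ 0 := by
    intro h
    refine mul_ne_zero f1n (hcl.G_ne (j := 1) (by omega)) ?_
    linear_combination f 1 * g15 + (a - 1) * (a * r - 1) * hf1 + h
  -- lam' 1
  obtain ⟨y, y0, hs3, ht3, hmu', hmu⟩ := z1_y g (by omega) hZ
  have q3 := z1_qz g (by omega) BB hmu' (le_refl 3) (by omega)
  rw [t1, s1, s3, qz] at q3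
  rw [t1, s1, s3] at hs3
  rw [t1] at hmu'
  have hay : a ^ 2 * y = -(a * r) := by linear_combination -hs3
  have hal2 : (1 - g.lam' 1) * ((a - 1) * (r - 1)) = 2 := by
    have hU : a ^ 3 * r * (a ^ 2 - 1) * (a ^ 2 - r) ≠ 0 := by
      refine mul_ne_zero (mul_ne_zero (mul_ne_zero (pow_ne_zero 3 ha) hr) ?_) ?_
      · intro h
        exact mul_ne_zero ha1 ha1' (by linear_combination h)
      · intro h
        have : a ^ 2 * (a + 1) ^ 3 = 0 := by
          linear_combination C + (a ^ 2 + r + (1 + a) * (1 + a + a ^ 2)) * h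
        exact mul_ne_zero (pow_ne_zero 2 ha) (pow_ne_zero 3 ha1') this
    apply mul_left_cancel₀ hU
    rw [hay] at q3
    linear_combination -q3 - a ^ 3 * r * (1 - g.lam' 1) * (a - 1) ^ 2 * C
  have hde2 : g.mu' 1 * ((a - 1) * (r - 1)) = 2 * a * r := by
    rw [hmu', hay]
    linear_combination a * r * hal2
  obtain ⟨sy, -⟩ := z1_sym g (by omega) hZ
  rw [t1, s1] at sy
  have hll : 1 - g.lam 1 = 1 - g.lam' 1 := by
    apply mul_right_cancel₀ (b := 1 - a ^ 2)
    · intro h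
      exact mul_ne_zero ha1 ha1' (by linear_combination -h)
    · exact sy
  have f2 := hf 1 (by omega)
  simp only [Finset.prod_range_succ, Finset.range_zero, Finset.prod_empty, one_mul,
    g.s0, s1, s2] at f2
  have f2' : f 2 = a * (a + 1) * (r - 1) := by
    rw [hll] at f2
    apply mul_left_cancel₀ h20
    linear_combination (r - 1) * f2 - f 2 * hal2
  -- lam 3 and f 4
  have g23 := g.row2G (k := 3) (by omega) (by omega)
  have h23 := g.row2H (k := 3) (by omega) (by omega)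
  have g24 := g.row2G (k := 4) (by omega) (by omega)
  rw [s3] at g23 h23
  rw [s4] at g24
  have u13 := g.U1 1 3 (by omega) (by omega)
  have u23 := g.U1 2 3 (by omega) (by omega)
  have u14 := g.U1 1 4 (by omega) (by omega)
  rw [t1] at u13 u14
  rw [t2] at u23
  rw [GForm.kap, t1] at hk3 hk4
  have l3 : (a + 1) * (r + 1) * (1 - g.lam 3) = 2 := by
    refine e1_lam3 (X := X) (Y := Y) (al := 1 - g.lam' 1) (de := g.mu' 1) (G13 := g.G 1 3)
      (G14 := g.G 1 4) (H13 := g.H 1 3) (H14 := g.H 1 4) (G23 := g.G 2 3) (G24 := g.G 2 4)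
      (H23 := g.H 2 3) ha ha1 hr hr1 har C B (by linear_combination g13)
      (by linear_combination g14) (by linear_combination -h13) (by linear_combination h14)
      hal2 hde2 (by linear_combination g23) (by linear_combination g24) h23 u13
      (by linear_combination u23) (Or.inl hk3)
  have f4 := hf 3 (by omega)
  simp only [Finset.prod_range_succ, Finset.range_zero, Finset.prod_empty, one_mul,
    g.s0, s1, s2, s3, s4] at f4
  have f4' : f 4 = -(r * (a + 1) * (r - 1)) := by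
    apply mul_left_cancel₀ (mul_ne_zero h20 (mul_ne_zero hra hra'))
    linear_combination -(a + 1) * f4 - f 4 * (r - a) * (r + a) * l3
  -- f 5
  have f5 := hf 4 (by omega)
  simp only [Finset.prod_range_succ, Finset.range_zero, Finset.prod_empty, one_mul,
    g.s0, s1, s2, s3, s4, s5] at f5
  have f5Y : f 5 * Y = -(a ^ 2 * r ^ 2) :=
    e1_f5 (X := X) (G14 := g.G 1 4) (G15 := g.G 1 5) (H14 := g.H 1 4) (lam := g.lam 4)
      ha hr hr1 hr1' ha1 ha1' har C B (by linear_combination g14) g15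
      (by linear_combination h14) u14 hk4 (by linear_combination f5)
  have f5' : f 5 * ((a + 1) * (a ^ 2 + 1) * f 1 - (a * r - 1)) = -(a ^ 4 * r * (a * r - 1) * f 1) := by
    apply mul_left_cancel₀ hr
    linear_combination -f 5 * iY + a ^ 2 * (a * r - 1) * f 1 * f5Y
  exact ⟨a, r, ⟨C, ha, hr, t1, t2, t3, t4, t5, s1, s2, s3, s4, s5⟩,
    ⟨h20, ha1, ha1', hr1, hr1', har, hra, hra'⟩,
    ⟨f1', f2', f3', f4', f5', f1n, n2, n3, n4, n6, n7⟩⟩

end Pool.Agent.Helper31.IP5
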